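import Pool.Agent.Q96.DY.Base

/-!
# Project DY of helper186: the energy equality (job EQ)
-/

set_option autoImplicit false

namespace Pool.Agent.Q96.DY

open Set Filter Topology MeasureTheory Pool.Agent.Q186.DY

theorem t_EQ : P_EQ := by
  intro L g k V hL hg hk hV hVn hsum hdec
  have hL0 : 0 < L := by linarith
  have hg0 : 0 < g := by linarith
  set E0 : ℝ := ∑' n, (g / L) ^ n * V n 0 ^ 2 with hE0
  have hpos : ∀ (n : ℕ) (t : ℝ), 0 ≤ (g / L) ^ n * V n t ^ 2 := fun n t => by positivity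
  have hpos' : ∀ (n : ℕ) (t : ℝ), 0 ≤ g ^ n * V n t ^ 2 := fun n t => by positivity
  have hEN0 : ∀ N, ∑ n ∈ Finset.range (N + 1), (g / L) ^ n * V n 0 ^ 2 ≤ E0 := fun N =>
    hsum.sum_le_tsum _ fun n _ => hpos n 0
  -- summability of the energy
  have hen : ∀ t, 0 ≤ t → ∀ N, ∑ n ∈ Finset.range (N + 1), (g / L) ^ n * V n t ^ 2 ≤ E0 := by
    intro t ht N
    have h := energy_le hL hg hV hVn N (hEN0 N) ht
    have h1 : 0 ≤ 2 * k / L * ∫ s in (0:ℝ)..t, ∑ n ∈ Finset.range (N + 1), g ^ n * V n s ^ 2 := by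
      refine mul_nonneg (by positivity) (intervalIntegral.integral_nonneg ht fun s _ => ?_)
      exact Finset.sum_nonneg fun n _ => hpos' n s
    linarith
  have hen' : ∀ t, 0 ≤ t → ∀ N, ∑ n ∈ Finset.range N, (g / L) ^ n * V n t ^ 2 ≤ E0 := by
    intro t ht N
    refine le_trans ?_ (hen t ht N)
    exact Finset.sum_le_sum_of_subset_of_nonneg (Finset.range_mono (Nat.le_succ N))
      fun n _ _ => hpos n t
  have hS : ∀ t, 0 ≤ t → Summable (fun n => (g / L) ^ n * V n t ^ 2) := fun t ht =>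
    summable_of_sum_range_le (fun n => hpos n t) (hen' t ht)
  -- decay
  obtain ⟨q, hq0, hq1, hqg⟩ : ∃ q : ℝ, 0 < q ∧ q < 1 ∧ g * q ^ 2 ≤ 1 / 2 := by
    refine ⟨1 / (2 * g), by positivity, ?_, ?_⟩
    · rw [div_lt_one (by positivity)]; linarith
    · rw [div_pow, one_pow, mul_pow, mul_one_div, div_le_div_iff₀ (by positivity) (by norm_num)]
      nlinarith
  have hterm : ∀ t0, 0 < t0 → ∃ C : ℝ, 0 ≤ C ∧ ∀ n s, t0 ≤ s → V n s ≤ C * q ^ n ∧
      g ^ n * V n s ^ 2 ≤ C ^ 2 * (1 / 2) ^ n := by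
    intro t0 ht0
    obtain ⟨C, hC⟩ := hdec q t0 hq0 hq1 ht0
    have hC0 : 0 ≤ C := by
      have := (hVn 0 t0 ht0.le).trans (hC 0 t0 le_rfl)
      simpa using this
    refine ⟨C, hC0, fun n s hs => ⟨hC n s hs, ?_⟩⟩
    have h1 := hC n s hs
    have h2 := hVn n s (ht0.le.trans hs)
    calc g ^ n * V n s ^ 2 ≤ g ^ n * (C * q ^ n) ^ 2 := by gcongr
      _ = C ^ 2 * (g * q ^ 2) ^ n := by rw [mul_pow, mul_pow, ← pow_mul, ← pow_mul, mul_comm n 2]; ring
      _ ≤ C ^ 2 * (1 / 2) ^ n := by gcongr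
  have hgeo : ∀ C : ℝ, Summable (fun n : ℕ => C ^ 2 * (1 / 2 : ℝ) ^ n) := fun C =>
    (summable_geometric_of_lt_one (by norm_num) (by norm_num)).mul_left _
  have hSd : ∀ s, 0 < s → Summable (fun n => g ^ n * V n s ^ 2) := by
    intro s hs
    obtain ⟨C, hC0, hC⟩ := hterm s hs
    exact Summable.of_nonneg_of_le (fun n => hpos' n s) (fun n => (hC n s le_rfl).2) (hgeo C)
  set d : ℝ → ℝ := fun s => ∑' n, g ^ n * V n s ^ 2 with hd
  have hd0 : ∀ s, 0 ≤ d s := fun s => tsum_nonneg fun n => hpos' n s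
  have hcn : ∀ n, ContinuousOn (fun s => g ^ n * V n s ^ 2) (Ici 0) := fun n =>
    continuousOn_const.mul ((cont hV n).pow 2)
  -- continuity of the dissipation for positive times
  have hdc : ∀ t0, 0 < t0 → ContinuousOn d (Ici t0) := by
    intro t0 ht0
    obtain ⟨C, hC0, hC⟩ := hterm t0 ht0
    refine continuousOn_tsum (fun n => (hcn n).mono fun s hs => ht0.le.trans hs) (hgeo C) ?_
    intro n s hs
    rw [Real.norm_of_nonneg (hpos' n s)]
    exact (hC n s hs).2
  -- the identity on `[t0, t]`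
  have hmid : ∀ t0 t, 0 < t0 → t0 ≤ t → ∑' n, (g / L) ^ n * V n t ^ 2 +
      2 * k / L * ∫ s in t0..t, d s = ∑' n, (g / L) ^ n * V n t0 ^ 2 := by
    intro t0 t ht0 htt
    obtain ⟨C, hC0, hC⟩ := hterm t0 ht0
    have ht : 0 ≤ t := ht0.le.trans htt
    have hsub : Icc t0 t ⊆ Ici (0 : ℝ) := fun s hs => ht0.le.trans hs.1
    have hid : ∀ N, ∑ n ∈ Finset.range (N + 1), (g / L) ^ n * V n t ^ 2 +
        2 * k / L * (∫ s in t0..t, ∑ n ∈ Finset.range (N + 1), g ^ n * V n s ^ 2) +
        2 * g / L * (∫ s in t0..t, g ^ N * V N s ^ 2 * V (N + 1) s) =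
        ∑ n ∈ Finset.range (N + 1), (g / L) ^ n * V n t0 ^ 2 := by
      intro N
      have h1 := Pool.Agent.Q58.DY.en_main L g k V hL0 hV N t ht
      have h2 := Pool.Agent.Q58.DY.en_main L g k V hL0 hV N t0 ht0.le
      have c1 : ContinuousOn (fun s => ∑ n ∈ Finset.range (N + 1), g ^ n * V n s ^ 2) (Ici 0) :=
        continuousOn_finsetSum _ fun n _ => hcn n
      have c2 : ContinuousOn (fun s => g ^ N * V N s ^ 2 * V (N + 1) s) (Ici 0) :=
        (hcn N).mul (cont hV (N + 1))
      have ii : ∀ {f : ℝ → ℝ}, ContinuousOn f (Ici 0) → ∀ {x y : ℝ}, 0 ≤ x → x ≤ y →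
          IntervalIntegrable f volume x y := fun hf x y hx hxy =>
        (hf.mono fun s hs => hx.trans hs.1).intervalIntegrable_of_Icc hxy
      have e1 := intervalIntegral.integral_add_adjacent_intervals (ii c1 le_rfl ht0.le)
        (ii c1 ht0.le htt)
      have e2 := intervalIntegral.integral_add_adjacent_intervals (ii c2 le_rfl ht0.le)
        (ii c2 ht0.le htt)
      rw [← e1, ← e2] at h1
      linear_combination h1 - h2
    -- limits
    have l1 : Tendsto (fun N => ∑ n ∈ Finset.range (N + 1), (g / L) ^ n * V n t ^ 2) atTop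
        (𝓝 (∑' n, (g / L) ^ n * V n t ^ 2)) :=
      ((hS t ht).hasSum.tendsto_sum_nat).comp (tendsto_add_atTop_nat 1)
    have l2 : Tendsto (fun N => ∑ n ∈ Finset.range (N + 1), (g / L) ^ n * V n t0 ^ 2) atTop
        (𝓝 (∑' n, (g / L) ^ n * V n t0 ^ 2)) :=
      ((hS t0 ht0.le).hasSum.tendsto_sum_nat).comp (tendsto_add_atTop_nat 1)
    have l3 : Tendsto (fun N => ∫ s in t0..t, ∑ n ∈ Finset.range (N + 1), g ^ n * V n s ^ 2) atTop
        (𝓝 (∫ s in t0..t, d s)) := by
      refine intervalIntegral.tendsto_integral_filter_of_dominated_convergence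
        (fun _ => ∑' n : ℕ, C ^ 2 * (1 / 2 : ℝ) ^ n) ?_ ?_ ?_ ?_
      · refine Eventually.of_forall fun N => ?_
        rw [uIoc_of_le htt]
        exact ((continuousOn_finsetSum _ fun n _ => hcn n).mono
          (fun s hs => hsub (Ioc_subset_Icc_self hs))).aestronglyMeasurable measurableSet_Ioc
      · refine Eventually.of_forall fun N => ?_
        refine Eventually.of_forall fun s hs => ?_
        rw [uIoc_of_le htt] at hs
        rw [Real.norm_of_nonneg (Finset.sum_nonneg fun n _ => hpos' n s)]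
        refine le_trans (Finset.sum_le_sum fun n _ => (hC n s hs.1.le).2) ?_
        exact (hgeo C).sum_le_tsum _ fun n _ => by positivity
      · exact intervalIntegrable_const
      · refine Eventually.of_forall fun s hs => ?_
        rw [uIoc_of_le htt] at hs
        exact ((hSd s (ht0.trans hs.1)).hasSum.tendsto_sum_nat).comp (tendsto_add_atTop_nat 1)
    have l4 : Tendsto (fun N => ∫ s in t0..t, g ^ N * V N s ^ 2 * V (N + 1) s) atTop (𝓝 0) := by
      have hb : ∀ N, |∫ s in t0..t, g ^ N * V N s ^ 2 * V (N + 1) s| ≤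
          (C ^ 2 * (1 / 2) ^ N * C) * |t - t0| := by
        intro N
        rw [← Real.norm_eq_abs]
        refine intervalIntegral.norm_integral_le_of_norm_le_const fun s hs => ?_
        rw [uIoc_of_le htt] at hs
        have h1 := (hC N s hs.1.le).2
        have h2 := (hC (N + 1) s hs.1.le).1
        have h3 := hVn (N + 1) s (ht0.le.trans hs.1.le)
        rw [Real.norm_of_nonneg (mul_nonneg (hpos' N s) h3)]
        have h4 : V (N + 1) s ≤ C := by
          refine h2.trans ?_
          have : q ^ (N + 1) ≤ 1 := pow_le_one₀ hq0.le hq1.le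
          nlinarith
        exact mul_le_mul h1 h4 h3 (by positivity)
      refine squeeze_zero_norm (a := fun N => (C ^ 2 * (1 / 2) ^ N * C) * |t - t0|)
        (fun N => hb N) ?_
      have h5 : Tendsto (fun N : ℕ => (C ^ 2 * (1 / 2 : ℝ) ^ N * C) * |t - t0|) atTop
          (𝓝 ((C ^ 2 * 0 * C) * |t - t0|)) :=
        (((tendsto_pow_atTop_nhds_zero_of_lt_one (by norm_num) (by norm_num)).const_mul
          _).mul_const _).mul_const _
      simpa using h5
    have l5 := (l1.add (l3.const_mul (2 * k / L))).add (l4.const_mul (2 * g / L))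
    have l6 := tendsto_nhds_unique (l5.congr hid) l2
    rw [mul_zero, add_zero] at l6
    exact l6
  have hint : ∀ t, 0 ≤ t → IntervalIntegrable d volume 0 t := by
    intro t ht
    rw [intervalIntegrable_iff_integrableOn_Ioc_of_le ht]
    rcases ht.eq_or_lt with rfl | htpos
    · simp
    have hbd : ∀ t0, 0 < t0 → t0 ≤ t → ∫ s in t0..t, d s ≤ E0 * L / (2 * k) := by
      intro t0 ht0 htt
      have h1 := hmid t0 t ht0 htt
      have h2 : ∑' n, (g / L) ^ n * V n t0 ^ 2 ≤ E0 :=
        (hS t0 ht0.le).tsum_le_of_sum_range_le (hen' t0 ht0.le)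
      have h3 : 0 ≤ ∑' n, (g / L) ^ n * V n t ^ 2 := tsum_nonneg fun n => hpos n t
      rw [le_div_iff₀ (by positivity)]
      have h4 : 2 * k / L * (∫ s in t0..t, d s) ≤ E0 := by linarith
      calc (∫ s in t0..t, d s) * (2 * k) = (2 * k / L * ∫ s in t0..t, d s) * L := by field_simp
        _ ≤ E0 * L := by gcongr
    set a : ℕ → ℝ := fun j => t / (j + 1) with ha
    have ha0 : ∀ j, 0 < a j := fun j => by positivity
    have hat : ∀ j, a j ≤ t := fun j => by
      rw [ha]; exact div_le_self ht (by linarith [Nat.cast_nonneg (α := ℝ) j])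
    have hlim : Tendsto a atTop (𝓝 0) := by
      have := tendsto_one_div_add_atTop_nhds_zero_nat (𝕜 := ℝ)
      have h2 := this.const_mul t
      rw [mul_zero] at h2
      refine h2.congr fun j => ?_
      rw [ha]; ring
    refine integrableOn_Ioc_of_intervalIntegral_norm_bounded_left (a := a) (b := t)
      (l := atTop) (I := E0 * L / (2 * k)) ?_ hlim ?_
    · intro j
      exact (((hdc (a j) (ha0 j)).mono Icc_subset_Ici_self).integrableOn_compact
        isCompact_Icc).mono_set Ioc_subset_Icc_self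
    · refine Eventually.of_forall fun j => ?_
      refine le_trans (le_of_eq ?_) (hbd (a j) (ha0 j) (hat j))
      rw [intervalIntegral.integral_of_le (hat j)]
      exact integral_congr_ae (Eventually.of_forall fun s => Real.norm_of_nonneg (hd0 s))
  intro t ht
  refine ⟨hS t ht, hSd, hint t ht, ?_⟩
  rcases ht.eq_or_lt with rfl | htpos
  · simp [hE0]
  set a : ℕ → ℝ := fun j => t / (j + 1) with ha
  have ha0 : ∀ j, 0 < a j := fun j => by positivity
  have hat : ∀ j, a j ≤ t := fun j => by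
    rw [ha]; exact div_le_self ht (by linarith [Nat.cast_nonneg (α := ℝ) j])
  have hlim : Tendsto a atTop (𝓝 0) := by
    have := tendsto_one_div_add_atTop_nhds_zero_nat (𝕜 := ℝ)
    have h2 := this.const_mul t
    rw [mul_zero] at h2
    refine h2.congr fun j => ?_
    rw [ha]; ring
  have hlimW : Tendsto a atTop (𝓝[Icc 0 t] 0) :=
    tendsto_nhdsWithin_iff.2 ⟨hlim, Eventually.of_forall fun j => ⟨(ha0 j).le, hat j⟩⟩
  have hlimI : Tendsto a atTop (𝓝[Ici 0] 0) :=
    tendsto_nhdsWithin_iff.2 ⟨hlim, Eventually.of_forall fun j => (ha0 j).le⟩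
  have hI := hint t ht
  have l7 : Tendsto (fun j => ∫ s in a j..t, d s) atTop (𝓝 (∫ s in (0:ℝ)..t, d s)) := by
    have hIcc : IntegrableOn d (uIcc 0 t) := by
      rw [uIcc_of_le ht, integrableOn_Icc_iff_integrableOn_Ioc]
      exact (intervalIntegrable_iff_integrableOn_Ioc_of_le ht).1 hI
    have h1 := intervalIntegral.continuousOn_primitive_interval hIcc
    rw [uIcc_of_le ht] at h1
    have h2 := (h1 0 ⟨le_rfl, ht⟩).tendsto.comp hlimW
    have h3 := h2.const_sub (∫ s in (0:ℝ)..t, d s)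
    rw [intervalIntegral.integral_same, sub_zero] at h3
    refine h3.congr fun j => ?_
    have hI1 : IntervalIntegrable d volume 0 (a j) := hint (a j) (ha0 j).le
    have hI2 : IntervalIntegrable d volume (a j) t :=
      hI.mono_set (by rw [uIcc_of_le (hat j), uIcc_of_le ht]; exact Icc_subset_Icc_left (ha0 j).le)
    have h4 := intervalIntegral.integral_add_adjacent_intervals hI1 hI2
    simp only [Function.comp]
    linarith
  have l8 : Tendsto (fun j => ∑' n, (g / L) ^ n * V n (a j) ^ 2) atTop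
      (𝓝 (∑' n, (g / L) ^ n * V n t ^ 2 + 2 * k / L * ∫ s in (0:ℝ)..t, d s)) :=
    ((l7.const_mul (2 * k / L)).const_add _).congr fun j => hmid (a j) t (ha0 j) (hat j)
  refine le_antisymm ?_ ?_
  · refine le_of_tendsto l8 (Eventually.of_forall fun j => ?_)
    exact (hS (a j) (ha0 j).le).tsum_le_of_sum_range_le (hen' (a j) (ha0 j).le)
  · refine hsum.tsum_le_of_sum_range_le fun N => ?_
    have h1 : ContinuousOn (fun s => ∑ n ∈ Finset.range N, (g / L) ^ n * V n s ^ 2) (Ici 0) :=
      continuousOn_finsetSum _ fun n _ => continuousOn_const.mul ((cont hV n).pow 2)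
    have h2 := (h1 0 self_mem_Ici).tendsto.comp hlimI
    refine le_of_tendsto_of_tendsto h2 l8 (Eventually.of_forall fun j => ?_)
    exact (hS (a j) (ha0 j).le).sum_le_tsum _ fun n _ => hpos n (a j)

end Pool.Agent.Q96.DY
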