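import Pool.Agent.Q96.DY.Base

/-!
# Project DY of helper186: smoothing (job SM)
-/

set_option autoImplicit false

namespace Pool.Agent.Q96.DY

open Set Filter Topology MeasureTheory Pool.Agent.Q186.DY

/-- linear comparison -/
theorem compare {L g k : ℝ} {V : ℕ → ℝ → ℝ} (hL : 0 ≤ L) (hg : 0 ≤ g) (hk : 0 < k)
    (hV : Sys L g k V) (hVn : ∀ n t, 0 ≤ t → 0 ≤ V n t) (n : ℕ) {A t1 : ℝ} (ht1 : 0 ≤ t1)
    (hA : ∀ t, t1 ≤ t → V n t ≤ A) (t : ℝ) (ht : t1 ≤ t) :
    V (n + 1) t ≤ Real.exp (-(k * L ^ n * (t - t1))) * V (n + 1) t1 + A ^ 2 / k := by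
  set h : ℝ → ℝ := fun s => (V (n + 1) s - A ^ 2 / k) * Real.exp (k * L ^ n * (s - t1)) with hh
  have hder : ∀ s, t1 ≤ s → HasDerivWithinAt h
      ((L ^ n * (V n s ^ 2 - V (n + 1) s * (g * V (n + 2) s + k))) *
        Real.exp (k * L ^ n * (s - t1)) + (V (n + 1) s - A ^ 2 / k) *
        (Real.exp (k * L ^ n * (s - t1)) * (k * L ^ n * 1))) (Ici t1) s := by
    intro s hs
    have h1 := ((hV.deriv n s (ht1.trans hs)).mono (Ici_subset_Ici.2 ht1)).sub_const (A ^ 2 / k)
    have h2 : HasDerivWithinAt (fun s => Real.exp (k * L ^ n * (s - t1)))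
        (Real.exp (k * L ^ n * (s - t1)) * (k * L ^ n * 1)) (Ici t1) s :=
      ((((hasDerivWithinAt_id s (Ici t1)).sub_const t1).const_mul (k * L ^ n))).exp
    exact h1.mul h2
  have hanti : AntitoneOn h (Ici t1) := by
    refine antitoneOn_of_deriv_nonpos (convex_Ici t1)
      (fun s hs => (hder s hs).continuousWithinAt) ?_ ?_
    · intro s hs
      rw [interior_Ici] at hs
      exact (((hder s (le_of_lt hs)).hasDerivAt (Ici_mem_nhds hs)).differentiableAt
        ).differentiableWithinAt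
    · intro s hs
      rw [interior_Ici] at hs
      have hs' : t1 < s := hs
      rw [((hder s hs'.le).hasDerivAt (Ici_mem_nhds hs')).deriv]
      have e1 : (L ^ n * (V n s ^ 2 - V (n + 1) s * (g * V (n + 2) s + k))) *
          Real.exp (k * L ^ n * (s - t1)) + (V (n + 1) s - A ^ 2 / k) *
          (Real.exp (k * L ^ n * (s - t1)) * (k * L ^ n * 1)) =
          -(L ^ n * Real.exp (k * L ^ n * (s - t1)) *
            (A ^ 2 - V n s ^ 2 + g * (V (n + 1) s * V (n + 2) s))) := by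
        field_simp
        ring
      rw [e1, neg_nonpos]
      have hs0 : 0 ≤ s := ht1.trans hs'.le
      have a1 := hVn n s hs0
      have a2 := mul_nonneg (hVn (n + 1) s hs0) (hVn (n + 2) s hs0)
      have a3 := hA s hs'.le
      have a4 : 0 ≤ A ^ 2 - V n s ^ 2 := by nlinarith
      have a5 : 0 ≤ g * (V (n + 1) s * V (n + 2) s) := mul_nonneg hg a2
      have a6 : 0 ≤ L ^ n := pow_nonneg hL n
      positivity
  have h1 := hanti (self_mem_Ici) ht ht
  rw [hh] at h1
  simp only [sub_self, mul_zero, Real.exp_zero, mul_one] at h1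
  have h2 : V (n + 1) t - A ^ 2 / k ≤ Real.exp (-(k * L ^ n * (t - t1))) *
      (V (n + 1) t1 - A ^ 2 / k) := by
    have h3 := mul_le_mul_of_nonneg_left h1 (Real.exp_pos (-(k * L ^ n * (t - t1)))).le
    have h4 : Real.exp (-(k * L ^ n * (t - t1))) * Real.exp (k * L ^ n * (t - t1)) = 1 := by
      rw [← Real.exp_add, neg_add_cancel, Real.exp_zero]
    calc V (n + 1) t - A ^ 2 / k = (V (n + 1) t - A ^ 2 / k) *
          (Real.exp (-(k * L ^ n * (t - t1))) * Real.exp (k * L ^ n * (t - t1))) := by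
          rw [h4, mul_one]
      _ = Real.exp (-(k * L ^ n * (t - t1))) * ((V (n + 1) t - A ^ 2 / k) *
          Real.exp (k * L ^ n * (t - t1))) := by ring
      _ ≤ _ := h3
  have h5 : 0 ≤ Real.exp (-(k * L ^ n * (t - t1))) * (A ^ 2 / k) := by positivity
  linarith

/-- faster than every exponential -/
def Fast (b : ℕ → ℝ) : Prop := ∀ q : ℝ, 0 < q → q < 1 → ∃ C : ℝ, ∀ n, b n ≤ C * q ^ n

theorem fast_exp {c : ℝ} (hc : 0 < c) : Fast (fun n => Real.exp (-(c * 2 ^ n))) := by
  intro q hq0 hq1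
  obtain ⟨K, hK⟩ := exists_pow_lt_of_lt_one hq0 (show (1 / 2 : ℝ) < 1 by norm_num)
  refine ⟨K.factorial / c ^ K, fun n => ?_⟩
  have h1 := Real.pow_div_factorial_le_exp (c * 2 ^ n) (by positivity) K
  have h2 : 0 < (c * 2 ^ n) ^ K / (K.factorial : ℝ) := by positivity
  show Real.exp (-(c * 2 ^ n)) ≤ _
  rw [Real.exp_neg]
  calc (Real.exp (c * 2 ^ n))⁻¹ ≤ ((c * 2 ^ n) ^ K / (K.factorial : ℝ))⁻¹ := by gcongr
    _ = K.factorial / c ^ K * ((1 / 2) ^ K) ^ n := by
        rw [mul_pow, ← pow_mul, ← pow_mul, mul_comm n K, div_pow, one_pow]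
        field_simp
    _ ≤ K.factorial / c ^ K * q ^ n := by gcongr

/-- the sequence lemma -/
theorem seq_fast {k : ℝ} (hk : 0 < k) {A b : ℕ → ℝ} (hA0 : ∀ n, 0 ≤ A n) (hA : ∀ n, A n ≤ k / 2)
    (hb0 : ∀ n, 0 ≤ b n) (hb : Fast b) (hAb : ∀ n, A (n + 1) ≤ b n + A n ^ 2 / k) : Fast A := by
  -- step 1
  have h1 : ∃ C : ℝ, ∀ n, A n ≤ C * (3 / 4) ^ n := by
    obtain ⟨C, hC⟩ := hb (3 / 4) (by norm_num) (by norm_num)
    have hC0 : 0 ≤ C := by simpa using (hb0 0).trans (hC 0)
    refine ⟨4 * C + k / 2, fun n => ?_⟩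
    induction n with
    | zero => simp only [pow_zero, mul_one]; have := hA 0; linarith
    | succ n ih =>
      have e1 := hAb n
      have e2 : A n ^ 2 / k ≤ A n / 2 := by
        rw [div_le_div_iff₀ hk (by norm_num)]
        have := hA n
        have := hA0 n
        nlinarith
      have e3 := hC n
      have e4 : (0 : ℝ) < (3 / 4) ^ n := by positivity
      rw [pow_succ]
      nlinarith [mul_pos hk e4]
  obtain ⟨C1, hC1⟩ := h1
  have hlim : Tendsto A atTop (𝓝 0) := by
    refine squeeze_zero hA0 hC1 ?_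
    have := (tendsto_pow_atTop_nhds_zero_of_lt_one (r := (3 / 4 : ℝ)) (by norm_num)
      (by norm_num)).const_mul C1
    rwa [mul_zero] at this
  intro q hq0 hq1
  have h2 : ∀ᶠ n in atTop, A n < k * (q / 2) := hlim.eventually_lt_const (by positivity)
  obtain ⟨n1, hn1⟩ := eventually_atTop.1 h2
  obtain ⟨C, hC⟩ := hb q hq0 hq1
  have hC0 : 0 ≤ C := by simpa using (hb0 0).trans (hC 0)
  set C2 : ℝ := 2 * C / q + k / 2 / q ^ n1 with hC2
  have hC20 : 0 ≤ C2 := by positivity
  have hqn : ∀ n, n ≤ n1 → A n ≤ C2 * q ^ n := by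
    intro n hn
    have e1 : q ^ n1 ≤ q ^ n := pow_le_pow_of_le_one hq0.le hq1.le hn
    have e2 : k / 2 / q ^ n1 * q ^ n1 = k / 2 := div_mul_cancel₀ _ (by positivity)
    have e3 : k / 2 / q ^ n1 * q ^ n1 ≤ k / 2 / q ^ n1 * q ^ n := by gcongr
    have e4 : 0 ≤ 2 * C / q * q ^ n := by positivity
    have e5 := hA n
    rw [hC2, add_mul]
    linarith
  refine ⟨C2, fun n => ?_⟩
  rcases le_total n n1 with hn | hn
  · exact hqn n hn
  · induction n, hn using Nat.le_induction with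
    | base => exact hqn n1 le_rfl
    | succ n hn ih =>
      have e1 := hAb n
      have e2 : A n ^ 2 / k ≤ q / 2 * A n := by
        rw [div_le_iff₀ hk]
        have := hn1 n hn
        have := hA0 n
        nlinarith
      have e3 := hC n
      have e4 : 0 < q ^ n := by positivity
      have e5 : q / 2 * A n ≤ q / 2 * (C2 * q ^ n) := by gcongr
      have e6 : C ≤ C2 * (q / 2) := by
        have : 2 * C / q * (q / 2) = C := by field_simp
        have h7 : 0 ≤ k / 2 / q ^ n1 * (q / 2) := by positivity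
        rw [hC2, add_mul, this]
        linarith
      have e7 : C * q ^ n ≤ C2 * (q / 2) * q ^ n := by gcongr
      rw [pow_succ]
      nlinarith

/-- the iterated bounds -/
noncomputable def bd (k : ℝ) (b : ℕ → ℝ) : ℕ → ℝ
  | 0 => k / 2
  | m + 1 => min (k / 2) (b m + bd k b m ^ 2 / k)

theorem bd_le {k : ℝ} (b : ℕ → ℝ) (m : ℕ) : bd k b m ≤ k / 2 := by
  rcases m with _ | m
  · exact le_rfl
  · exact min_le_left _ _

theorem bd_nonneg {k : ℝ} (hk : 0 < k) {b : ℕ → ℝ} (hb : ∀ n, 0 ≤ b n) (m : ℕ) :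
    0 ≤ bd k b m := by
  rcases m with _ | m
  · show 0 ≤ k / 2
    positivity
  · have := hb m
    exact le_min (by positivity) (by positivity)

theorem bd_fast {k : ℝ} (hk : 0 < k) {b : ℕ → ℝ} (hb0 : ∀ n, 0 ≤ b n) (hb : Fast b) :
    Fast (bd k b) :=
  seq_fast hk (bd_nonneg hk hb0) (bd_le b) hb0 hb fun _ => min_le_right _ _

/-- from the tail to all indices -/
theorem all_of_tail {M : ℝ} {N2 : ℕ} {A : ℕ → ℝ} (hA : Fast A) {S : Set ℝ} {V : ℕ → ℝ → ℝ}
    (hM : ∀ n, ∀ t ∈ S, V n t ≤ M)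
    (hVA : ∀ m, ∀ t ∈ S, V (N2 + m) t ≤ A m) (q : ℝ) (hq0 : 0 < q) (hq1 : q < 1) :
    ∃ C : ℝ, ∀ n, ∀ t ∈ S, V n t ≤ C * q ^ n := by
  obtain ⟨C, hC⟩ := hA q hq0 hq1
  refine ⟨(|C| + |M|) / q ^ N2, fun n t ht => ?_⟩
  rcases Nat.lt_or_ge n N2 with hn | hn
  · have e1 : q ^ N2 ≤ q ^ n := pow_le_pow_of_le_one hq0.le hq1.le hn.le
    have e2 := hM n t ht
    have e3 : (|C| + |M|) / q ^ N2 * q ^ N2 ≤ (|C| + |M|) / q ^ N2 * q ^ n := by gcongr
    rw [div_mul_cancel₀ _ (by positivity)] at e3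
    have e4 := le_abs_self M
    have e5 := abs_nonneg C
    linarith
  · obtain ⟨m, rfl⟩ := Nat.exists_eq_add_of_le hn
    have e1 := hVA m t ht
    have e2 := hC m
    have e3 : (|C| + |M|) / q ^ N2 * q ^ (N2 + m) = (|C| + |M|) * q ^ m := by
      rw [pow_add]
      field_simp
    have e4 : C * q ^ m ≤ (|C| + |M|) * q ^ m := by
      have := le_abs_self C
      have := abs_nonneg M
      gcongr
      linarith
    linarith

theorem t_SM : P_SM := by
  intro L g k M N2 V hL hg hk hV hVn hM hN2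
  have hM0 : 0 ≤ M := (hVn 0 0 le_rfl).trans (hM 0 0 le_rfl)
  have hL0 : 0 ≤ L := by linarith
  constructor
  · intro q t0 hq0 hq1 ht0
    set tt : ℕ → ℝ := fun m => t0 * (1 - (1 / 2) ^ m) with htt
    set b : ℕ → ℝ := fun m => M * Real.exp (-(k * L ^ (N2 + m) * (tt (m + 1) - tt m))) with hb
    have htt0 : ∀ m, 0 ≤ tt m := fun m => by
      have : (1 / 2 : ℝ) ^ m ≤ 1 := pow_le_one₀ (by norm_num) (by norm_num)
      exact mul_nonneg ht0.le (by linarith)
    have htt1 : ∀ m, tt m ≤ t0 := fun m => by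
      have : (0 : ℝ) < (1 / 2) ^ m := by positivity
      rw [htt]
      nlinarith
    have hdiff : ∀ m, tt (m + 1) - tt m = t0 / 2 * (1 / 2) ^ m := fun m => by
      rw [htt]
      simp only [pow_succ]
      ring
    have hb0 : ∀ m, 0 ≤ b m := fun m => mul_nonneg hM0 (Real.exp_pos _).le
    have hbf : Fast b := by
      intro r hr0 hr1
      obtain ⟨C, hC⟩ := fast_exp (c := k * t0 / 2) (by positivity) r hr0 hr1
      refine ⟨M * C, fun m => ?_⟩
      rw [mul_assoc]
      refine mul_le_mul_of_nonneg_left (le_trans (Real.exp_le_exp.2 (neg_le_neg ?_)) (hC m)) hM0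
      rw [hdiff]
      have e1 : (4 : ℝ) ^ m ≤ L ^ (N2 + m) := by
        calc (4 : ℝ) ^ m ≤ L ^ m := by gcongr
          _ ≤ L ^ (N2 + m) := pow_le_pow_right₀ (by linarith) (by omega)
      have e2 : (4 : ℝ) ^ m * (1 / 2) ^ m = 2 ^ m := by
        rw [← mul_pow]; norm_num
      calc k * t0 / 2 * 2 ^ m = k * (t0 / 2) * (4 ^ m * (1 / 2) ^ m) := by rw [e2]; ring
        _ ≤ k * (t0 / 2) * (L ^ (N2 + m) * (1 / 2) ^ m) := by gcongr
        _ = k * L ^ (N2 + m) * (t0 / 2 * (1 / 2) ^ m) := by ring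
    have hmain : ∀ m, ∀ t, tt m ≤ t → V (N2 + m) t ≤ bd k b m := by
      intro m
      induction m with
      | zero => exact fun t ht => hN2 _ t le_rfl ((htt0 0).trans ht)
      | succ m ih =>
        intro t ht
        refine le_min (hN2 _ t (by omega) ((htt0 _).trans ht)) ?_
        have hpos : 0 ≤ t0 / 2 * (1 / 2 : ℝ) ^ m := by positivity
        have hmm : tt m ≤ tt (m + 1) := by have := hdiff m; linarith
        have h1 := compare hL0 (by linarith) hk hV hVn (N2 + m) (htt0 m) ih t (hmm.trans ht)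
        have h2 : Real.exp (-(k * L ^ (N2 + m) * (t - tt m))) * V (N2 + m + 1) (tt m) ≤ b m := by
          rw [hb, mul_comm]
          have e1 : 0 ≤ k * L ^ (N2 + m) := by positivity
          have e2 : k * L ^ (N2 + m) * (tt (m + 1) - tt m) ≤ k * L ^ (N2 + m) * (t - tt m) :=
            mul_le_mul_of_nonneg_left (by linarith) e1
          exact mul_le_mul (hM _ _ (htt0 m)) (Real.exp_le_exp.2 (neg_le_neg e2))
            (Real.exp_pos _).le hM0
        show V (N2 + m + 1) t ≤ _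
        linarith
    obtain ⟨C, hC⟩ := all_of_tail (S := Ici t0) (bd_fast hk hb0 hbf)
      (fun n t ht => hM n t (ht0.le.trans ht))
      (fun m t ht => hmain m t ((htt1 m).trans ht)) q hq0 hq1
    exact ⟨C, fun n t ht => hC n t ht⟩
  · intro hinit q hq0 hq1
    set b : ℕ → ℝ := fun m => V (N2 + m + 1) 0 with hb
    have hb0 : ∀ m, 0 ≤ b m := fun m => hVn _ 0 le_rfl
    have hbf : Fast b := by
      intro r hr0 hr1
      obtain ⟨C, hC⟩ := hinit r hr0 hr1
      have hC0 : 0 ≤ C := by simpa using (hVn 0 0 le_rfl).trans (hC 0)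
      refine ⟨C, fun m => (hC _).trans ?_⟩
      have : r ^ (N2 + m + 1) ≤ r ^ m := pow_le_pow_of_le_one hr0.le hr1.le (by omega)
      gcongr
    have hmain : ∀ m, ∀ t, 0 ≤ t → V (N2 + m) t ≤ bd k b m := by
      intro m
      induction m with
      | zero => exact fun t ht => hN2 _ t le_rfl ht
      | succ m ih =>
        intro t ht
        refine le_min (hN2 _ t (by omega) ht) ?_
        have h1 := compare hL0 (by linarith) hk hV hVn (N2 + m) le_rfl ih t ht
        have h2 : Real.exp (-(k * L ^ (N2 + m) * (t - 0))) * V (N2 + m + 1) 0 ≤ b m := by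
          have e1 : Real.exp (-(k * L ^ (N2 + m) * (t - 0))) ≤ 1 := by
            rw [Real.exp_le_one_iff, neg_nonpos, sub_zero]
            positivity
          have e2 := hb0 m
          calc _ ≤ 1 * V (N2 + m + 1) 0 := by gcongr
            _ = b m := one_mul _
        show V (N2 + m + 1) t ≤ _
        linarith
    obtain ⟨C, hC⟩ := all_of_tail (S := Ici 0) (bd_fast hk hb0 hbf)
      (fun n t ht => hM n t ht)
      (fun m t ht => hmain m t ht) q hq0 hq1
    exact ⟨C, fun n t ht => hC n t ht⟩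

end Pool.Agent.Q96.DY
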