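import Pool.Agent.Q96.DY.Base

/-!
# Project DY of helper186: stability of bounded solutions (job UNI)
-/

set_option autoImplicit false

namespace Pool.Agent.Q96.DY

open Set Filter Topology MeasureTheory Pool.Agent.Q186.DY

/-- the derivative of the weighted sum of the squares of the differences -/
noncomputable def dpsi (L g k : ℝ) (V W : ℕ → ℝ → ℝ) (N : ℕ) (t : ℝ) : ℝ :=
  ∑ n ∈ Finset.range N, (g / (2 * L)) ^ (n + 1) * (2 * (V (n + 1) t - W (n + 1) t) *
    (L ^ n * (V n t ^ 2 - V (n + 1) t * (g * V (n + 2) t + k)) -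
      L ^ n * (W n t ^ 2 - W (n + 1) t * (g * W (n + 2) t + k))))

theorem psi_deriv {L g k : ℝ} {V W : ℕ → ℝ → ℝ} (hV : Sys L g k V) (hW : Sys L g k W) (N : ℕ)
    (t : ℝ) (ht : 0 ≤ t) :
    HasDerivWithinAt (fun t => ∑ n ∈ Finset.range (N + 1), (g / (2 * L)) ^ n *
      (V n t - W n t) ^ 2) (dpsi L g k V W N t) (Ici 0) t := by
  have h0 : HasDerivWithinAt (fun t => (g / (2 * L)) ^ 0 * (V 0 t - W 0 t) ^ 2) 0 (Ici 0) t := by
    refine (hasDerivWithinAt_const t (Ici (0 : ℝ)) (0 : ℝ)).congr (fun y hy => ?_) ?_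
    · rw [hV.zero y hy, hW.zero y hy]; simp
    · rw [hV.zero t ht, hW.zero t ht]; simp
  have h1 : ∀ n ∈ Finset.range N, HasDerivWithinAt
      (fun t => (g / (2 * L)) ^ (n + 1) * (V (n + 1) t - W (n + 1) t) ^ 2)
      ((g / (2 * L)) ^ (n + 1) * (2 * (V (n + 1) t - W (n + 1) t) *
    (L ^ n * (V n t ^ 2 - V (n + 1) t * (g * V (n + 2) t + k)) -
      L ^ n * (W n t ^ 2 - W (n + 1) t * (g * W (n + 2) t + k))))) (Ici 0) t := by
    intro n _
    have h2 := (((hV.deriv n t ht).sub (hW.deriv n t ht)).pow 2).const_mul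
      ((g / (2 * L)) ^ (n + 1))
    simpa using h2
  have h3 := (HasDerivWithinAt.fun_sum h1).add h0
  simp only [add_zero] at h3
  refine HasDerivWithinAt.congr h3 (fun y _ => ?_) ?_
  · exact Finset.sum_range_succ' _ _
  · exact Finset.sum_range_succ' _ _

theorem dpsi_eq {L g k : ℝ} {V W : ℕ → ℝ → ℝ} (hL : L ≠ 0) (hV : Sys L g k V)
    (hW : Sys L g k W) (N : ℕ) (t : ℝ) (ht : 0 ≤ t) :
    dpsi L g k V W N t = - ∑ n ∈ Finset.range N, (g / L) * (g / 2) ^ n *
      (V (n + 1) t - W (n + 1) t) ^ 2 * (g / 2 * (V (n + 2) t + W (n + 2) t) + k)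
      - (g / L) * (g / 2) ^ N * ((V N t ^ 2 - W N t ^ 2) * (V (N + 1) t - W (N + 1) t)) := by
  induction N with
  | zero => simp [dpsi, hV.zero t ht, hW.zero t ht]
  | succ N ih =>
    have h1 : dpsi L g k V W (N + 1) t = dpsi L g k V W N t + (g / (2 * L)) ^ (N + 1) *
        (2 * (V (N + 1) t - W (N + 1) t) *
        (L ^ N * (V N t ^ 2 - V (N + 1) t * (g * V (N + 2) t + k)) -
        L ^ N * (W N t ^ 2 - W (N + 1) t * (g * W (N + 2) t + k)))) := by
      unfold dpsi
      rw [Finset.sum_range_succ]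
    have h2 : (g / (2 * L)) ^ (N + 1) * L ^ N = (g / L) * (g / 2) ^ N / 2 := by
      have e1 : (g / (2 * L)) = (g / 2) / L := by field_simp
      rw [e1, div_pow, pow_succ L, pow_succ (g / 2)]
      have : L ^ N ≠ 0 := pow_ne_zero _ hL
      field_simp
    rw [h1, ih, Finset.sum_range_succ]
    have h3 : (g / (2 * L)) ^ (N + 1) * (2 * (V (N + 1) t - W (N + 1) t) *
        (L ^ N * (V N t ^ 2 - V (N + 1) t * (g * V (N + 2) t + k)) -
        L ^ N * (W N t ^ 2 - W (N + 1) t * (g * W (N + 2) t + k)))) =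
        ((g / (2 * L)) ^ (N + 1) * L ^ N) * (2 * (V (N + 1) t - W (N + 1) t) *
        ((V N t ^ 2 - V (N + 1) t * (g * V (N + 2) t + k)) -
        (W N t ^ 2 - W (N + 1) t * (g * W (N + 2) t + k)))) := by ring
    rw [h3, h2, pow_succ (g / 2)]
    ring

theorem t_UNI : P_UNI := by
  intro L g k M E B V W hL hg hk hV hW hVn hWn hM hEV hEW hB N₀ t ht
  have hL0 : 0 < L := by linarith
  have hg0 : 0 < g := by linarith
  have hM0 : 0 ≤ M := (hVn 0 0 le_rfl).trans (hM 0 0 le_rfl)
  have hE0 : 0 ≤ E := le_trans (Finset.sum_nonneg fun n _ => by positivity) (hEV 0)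
  set C : ℝ := (g / L) * M * (3 * (E * L / (2 * k))) with hC
  have key : ∀ N, ∑ n ∈ Finset.range (N + 1), (g / (2 * L)) ^ n * (V n t - W n t) ^ 2 ≤
      B + C * (1 / 2) ^ N := by
    intro N
    have hcV := cont hV
    have hcW := cont hW
    have hdc : ContinuousOn (dpsi L g k V W N) (Ici 0) := by
      unfold dpsi
      refine continuousOn_finsetSum _ fun n _ => continuousOn_const.mul
        ((continuousOn_const.mul ((hcV (n + 1)).sub (hcW (n + 1)))).mul
          ((cont_rhs hV n).sub (cont_rhs hW n)))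
    have hF := ftc (fun s hs => psi_deriv hV hW N s hs) hdc le_rfl ht
    -- the upper bound of the derivative
    have hup : ∀ s, 0 ≤ s → dpsi L g k V W N s ≤ (g / L) * (1 / 2) ^ N * M *
        (g ^ N * V N s ^ 2 + g ^ (N + 1) * W (N + 1) s ^ 2 + g ^ N * W N s ^ 2) := by
      intro s hs
      rw [dpsi_eq hL0.ne' hV hW N s hs]
      have a1 := hVn N s hs
      have a2 := hVn (N + 1) s hs
      have a3 := hWn N s hs
      have a4 := hWn (N + 1) s hs
      have b1 := hM N s hs
      have b2 := hM (N + 1) s hs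
      have h1 : 0 ≤ ∑ n ∈ Finset.range N, (g / L) * (g / 2) ^ n *
          (V (n + 1) s - W (n + 1) s) ^ 2 * (g / 2 * (V (n + 2) s + W (n + 2) s) + k) := by
        refine Finset.sum_nonneg fun n _ => ?_
        have c1 := hVn (n + 2) s hs
        have c2 := hWn (n + 2) s hs
        positivity
      have h2 : -((V N s ^ 2 - W N s ^ 2) * (V (N + 1) s - W (N + 1) s)) ≤
          M * (V N s ^ 2 + W (N + 1) s ^ 2 + W N s ^ 2) := by
        have d1 : V N s ^ 2 * W (N + 1) s ≤ M * (V N s ^ 2 + W (N + 1) s ^ 2) := by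
          have e1 : V N s ^ 2 * W (N + 1) s ≤ M * (V N s * W (N + 1) s) := by
            have : 0 ≤ V N s * W (N + 1) s := mul_nonneg a1 a4
            nlinarith
          have e2 : V N s * W (N + 1) s ≤ V N s ^ 2 + W (N + 1) s ^ 2 := by
            nlinarith [sq_nonneg (V N s - W (N + 1) s), mul_nonneg a1 a4]
          exact e1.trans (mul_le_mul_of_nonneg_left e2 hM0)
        have d2 : W N s ^ 2 * V (N + 1) s ≤ M * W N s ^ 2 := by
          have := mul_le_mul_of_nonneg_left b2 (sq_nonneg (W N s))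
          linarith
        have d3 : 0 ≤ V N s ^ 2 * V (N + 1) s := by positivity
        have d4 : 0 ≤ W N s ^ 2 * W (N + 1) s := by positivity
        nlinarith
      have h3 : 0 ≤ (g / L) * (g / 2) ^ N := by positivity
      have h4 := mul_le_mul_of_nonneg_left h2 h3
      have h5 : (g / L) * (g / 2) ^ N * (M * (V N s ^ 2 + W (N + 1) s ^ 2 + W N s ^ 2)) ≤
          (g / L) * (1 / 2) ^ N * M *
            (g ^ N * V N s ^ 2 + g ^ (N + 1) * W (N + 1) s ^ 2 + g ^ N * W N s ^ 2) := by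
        have e1 : (g / 2) ^ N = (1 / 2) ^ N * g ^ N := by
          rw [← mul_pow]; congr 1; ring
        have e2 : g ^ N ≤ g ^ (N + 1) := pow_le_pow_right₀ hg (Nat.le_succ N)
        have e3 : g ^ N * W (N + 1) s ^ 2 ≤ g ^ (N + 1) * W (N + 1) s ^ 2 := by gcongr
        have e4 : 0 ≤ (g / L) * (1 / 2) ^ N * M := by positivity
        rw [e1]
        have := mul_le_mul_of_nonneg_left (show g ^ N * V N s ^ 2 + g ^ N * W (N + 1) s ^ 2 +
          g ^ N * W N s ^ 2 ≤ g ^ N * V N s ^ 2 + g ^ (N + 1) * W (N + 1) s ^ 2 +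
          g ^ N * W N s ^ 2 by linarith) e4
        refine le_trans (le_of_eq ?_) this
        ring
      linarith
    have hsub : Icc 0 t ⊆ Ici (0 : ℝ) := fun s hs => hs.1
    have i1 : IntervalIntegrable (fun s => g ^ N * V N s ^ 2) volume 0 t :=
      ((continuousOn_const.mul ((hcV N).pow 2)).mono hsub).intervalIntegrable_of_Icc ht
    have i2 : IntervalIntegrable (fun s => g ^ (N + 1) * W (N + 1) s ^ 2) volume 0 t :=
      ((continuousOn_const.mul ((hcW (N + 1)).pow 2)).mono hsub).intervalIntegrable_of_Icc ht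
    have i3 : IntervalIntegrable (fun s => g ^ N * W N s ^ 2) volume 0 t :=
      ((continuousOn_const.mul ((hcW N).pow 2)).mono hsub).intervalIntegrable_of_Icc ht
    have h1 : ∫ s in (0:ℝ)..t, dpsi L g k V W N s ≤ ∫ s in (0:ℝ)..t, (g / L) * (1 / 2) ^ N * M *
        (g ^ N * V N s ^ 2 + g ^ (N + 1) * W (N + 1) s ^ 2 + g ^ N * W N s ^ 2) :=
      intervalIntegral.integral_mono_on ht ((hdc.mono hsub).intervalIntegrable_of_Icc ht)
        (((i1.add i2).add i3).const_mul _) fun s hs => hup s hs.1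
    rw [intervalIntegral.integral_const_mul, intervalIntegral.integral_add (i1.add i2) i3,
      intervalIntegral.integral_add i1 i2] at h1
    have t1 := term_le hL hg hk hV hVn N (hEV N) ht
    have t2 := term_le hL hg hk hW hWn (N + 1) (hEW (N + 1)) ht
    have t3 := term_le hL hg hk hW hWn N (hEW N) ht
    have h2 : (g / L) * (1 / 2) ^ N * M * (((∫ s in (0:ℝ)..t, g ^ N * V N s ^ 2) +
        ∫ s in (0:ℝ)..t, g ^ (N + 1) * W (N + 1) s ^ 2) + ∫ s in (0:ℝ)..t, g ^ N * W N s ^ 2) ≤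
        (g / L) * (1 / 2) ^ N * M * (3 * (E * L / (2 * k))) :=
      mul_le_mul_of_nonneg_left (by linarith) (by positivity)
    have h3 := hB N
    rw [hF] at h1
    have h4 : (g / L) * (1 / 2) ^ N * M * (3 * (E * L / (2 * k))) = C * (1 / 2) ^ N := by
      rw [hC]; ring
    rw [h4] at h2
    have h5 := h1.trans h2
    linarith
  have hlim : Tendsto (fun N : ℕ => B + C * (1 / 2 : ℝ) ^ N) atTop (𝓝 (B + C * 0)) :=
    tendsto_const_nhds.add (tendsto_const_nhds.mul
      (tendsto_pow_atTop_nhds_zero_of_lt_one (by norm_num) (by norm_num)))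
  rw [mul_zero, add_zero] at hlim
  refine ge_of_tendsto hlim ?_
  filter_upwards [eventually_ge_atTop N₀] with N hN
  refine le_trans ?_ (key N)
  exact Finset.sum_le_sum_of_subset_of_nonneg (Finset.range_mono (by omega))
    fun n _ _ => by positivity

end Pool.Agent.Q96.DY
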