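import Pool.Agent.Q58.DY.EN

/-!
# Project DY of helper186: continuity and integration of derivatives
-/

set_option autoImplicit false

namespace Pool.Agent.Q96.DY

open Set Filter Topology MeasureTheory Pool.Agent.Q186.DY

theorem cont {L g k : ℝ} {V : ℕ → ℝ → ℝ} (hV : Sys L g k V) (n : ℕ) :
    ContinuousOn (V n) (Ici 0) := by
  rcases n with _ | n
  · exact continuousOn_const.congr fun t ht => hV.zero t ht
  · exact fun t ht => (hV.deriv n t ht).continuousWithinAt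

/-- the right hand side -/
theorem cont_rhs {L g k : ℝ} {V : ℕ → ℝ → ℝ} (hV : Sys L g k V) (n : ℕ) :
    ContinuousOn (fun t => L ^ n * (V n t ^ 2 - V (n + 1) t * (g * V (n + 2) t + k))) (Ici 0) :=
  continuousOn_const.mul (((cont hV n).pow 2).sub ((cont hV (n + 1)).mul
    ((continuousOn_const.mul (cont hV (n + 2))).add continuousOn_const)))

/-- a function with continuous derivative on `[0, ∞)` -/
theorem ftc {f f' : ℝ → ℝ} (hf : ∀ t, 0 ≤ t → HasDerivWithinAt f (f' t) (Ici 0) t)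
    (hc : ContinuousOn f' (Ici 0)) {a b : ℝ} (ha : 0 ≤ a) (hab : a ≤ b) :
    ∫ s in a..b, f' s = f b - f a := by
  have hsub : Icc a b ⊆ Ici 0 := fun s hs => ha.trans hs.1
  refine intervalIntegral.integral_eq_sub_of_hasDeriv_right_of_le hab
    (fun s hs => ((hf s (hsub hs)).continuousWithinAt).mono hsub) (fun x hx => ?_) ?_
  · exact (hf x (ha.trans hx.1.le)).mono fun y hy => (ha.trans hx.1.le).trans (le_of_lt hy)
  · exact (hc.mono hsub).intervalIntegrable_of_Icc hab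

/-- the energy bound -/
theorem energy_le {L g k E : ℝ} {V : ℕ → ℝ → ℝ} (hL : 1 ≤ L) (hg : 1 ≤ g)
    (hV : Sys L g k V) (hVn : ∀ n t, 0 ≤ t → 0 ≤ V n t) (N : ℕ)
    (hE : ∑ n ∈ Finset.range (N + 1), (g / L) ^ n * V n 0 ^ 2 ≤ E) {t : ℝ} (ht : 0 ≤ t) :
    ∑ n ∈ Finset.range (N + 1), (g / L) ^ n * V n t ^ 2
      + 2 * k / L * ∫ s in (0:ℝ)..t, ∑ n ∈ Finset.range (N + 1), g ^ n * V n s ^ 2 ≤ E := by
  have h := Pool.Agent.Q58.DY.en_main L g k V (by linarith) hV N t ht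
  have h1 : 0 ≤ ∫ s in (0:ℝ)..t, g ^ N * V N s ^ 2 * V (N + 1) s := by
    refine intervalIntegral.integral_nonneg ht fun s hs => ?_
    have := hVn (N + 1) s hs.1
    positivity
  have h2 : 0 ≤ 2 * g / L * ∫ s in (0:ℝ)..t, g ^ N * V N s ^ 2 * V (N + 1) s :=
    mul_nonneg (by positivity) h1
  linarith

/-- the dissipation bound -/
theorem diss_le {L g k E : ℝ} {V : ℕ → ℝ → ℝ} (hL : 1 ≤ L) (hg : 1 ≤ g) (hk : 0 < k)
    (hV : Sys L g k V) (hVn : ∀ n t, 0 ≤ t → 0 ≤ V n t) (N : ℕ)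
    (hE : ∑ n ∈ Finset.range (N + 1), (g / L) ^ n * V n 0 ^ 2 ≤ E) {t : ℝ} (ht : 0 ≤ t) :
    ∫ s in (0:ℝ)..t, ∑ n ∈ Finset.range (N + 1), g ^ n * V n s ^ 2 ≤ E * L / (2 * k) := by
  have h := energy_le hL hg hV hVn N hE ht
  have h1 : 0 ≤ ∑ n ∈ Finset.range (N + 1), (g / L) ^ n * V n t ^ 2 :=
    Finset.sum_nonneg fun n _ => by positivity
  have hL0 : 0 < L := by linarith
  rw [le_div_iff₀ (by positivity)]
  have h2 : 2 * k / L * (∫ s in (0:ℝ)..t, ∑ n ∈ Finset.range (N + 1), g ^ n * V n s ^ 2) ≤ E := by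
    linarith
  calc (∫ s in (0:ℝ)..t, ∑ n ∈ Finset.range (N + 1), g ^ n * V n s ^ 2) * (2 * k)
      = (2 * k / L * ∫ s in (0:ℝ)..t, ∑ n ∈ Finset.range (N + 1), g ^ n * V n s ^ 2) * L := by
        field_simp
    _ ≤ E * L := by gcongr

theorem term_le {L g k E : ℝ} {V : ℕ → ℝ → ℝ} (hL : 1 ≤ L) (hg : 1 ≤ g) (hk : 0 < k)
    (hV : Sys L g k V) (hVn : ∀ n t, 0 ≤ t → 0 ≤ V n t) (N : ℕ)
    (hE : ∑ n ∈ Finset.range (N + 1), (g / L) ^ n * V n 0 ^ 2 ≤ E) {t : ℝ} (ht : 0 ≤ t) :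
    ∫ s in (0:ℝ)..t, g ^ N * V N s ^ 2 ≤ E * L / (2 * k) := by
  refine le_trans ?_ (diss_le hL hg hk hV hVn N hE ht)
  have hsub : Icc 0 t ⊆ Ici (0 : ℝ) := fun s hs => hs.1
  have hc : ∀ n, ContinuousOn (fun s => g ^ n * V n s ^ 2) (Icc 0 t) := fun n =>
    (continuousOn_const.mul ((cont hV n).pow 2)).mono hsub
  refine intervalIntegral.integral_mono_on ht ((hc N).intervalIntegrable_of_Icc ht)
    ((continuousOn_finsetSum _ fun n _ => hc n).intervalIntegrable_of_Icc ht) fun s _ => ?_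
  exact Finset.single_le_sum (f := fun n => g ^ n * V n s ^ 2) (fun n _ => by positivity)
    (Finset.mem_range.2 (Nat.lt_succ_self N))

end Pool.Agent.Q96.DY
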